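import Mathlib
import Pool.Agent.MP_b84581_al.Giant

namespace Pool.Agent.Results.MP_b84581_al.AltPolylog

open Pool.Agent.MP_b84581_al MulAction

theorem result (n k : ℕ) (hk : 390 * (Nat.log 2 n + 1) ^ 3 ≤ k)
    (N M : Subgroup (FreeGroup (Fin k)))
    (hN : ∃ f : FreeGroup (Fin k) →* alternatingGroup (Fin n),
      Function.Surjective f ∧ f.ker = N)
    (hM : ∃ g : FreeGroup (Fin k) →* alternatingGroup (Fin n),
      Function.Surjective g ∧ g.ker = M) :
    ∃ φ : FreeGroup (Fin k) ≃* FreeGroup (Fin k), Subgroup.map φ.toMonoidHom N = M := by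
  obtain ⟨f, hf, rfl⟩ := hN
  obtain ⟨g, hg, rfl⟩ := hM
  obtain ⟨f, rfl⟩ := FreeGroup.lift.surjective f
  obtain ⟨g, rfl⟩ := FreeGroup.lift.surjective g
  rw [← MonoidHom.range_eq_top, FreeGroup.range_lift_eq_closure] at hf hg
  suffices h : NE g f by
    obtain ⟨φ, h⟩ := h
    refine ⟨φ, ?_⟩
    ext W
    rw [Subgroup.mem_map_equiv, MonoidHom.mem_ker, MonoidHom.mem_ker, h,
      MulEquiv.apply_symm_apply]
  have hL : n < 2 ^ (Nat.log 2 n + 1) := Nat.lt_pow_succ_log_self (by norm_num) n
  have hL0 : 0 < Nat.log 2 n + 1 := Nat.succ_pos _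
  generalize Nat.log 2 n + 1 = L at hk hL hL0
  have hL3 : L ≤ L ^ 3 := Nat.le_self_pow (by norm_num) L
  by_cases hn : 4 * (4 * L) ^ 2 + 2 ≤ n
  · have h39 : 66 ≤ n := by nlinarith
    have hL6 : 4 ≤ L := by
      by_contra hc
      have : 2 ^ L ≤ 2 ^ 3 := Nat.pow_le_pow_right (by norm_num) (by omega)
      omega
    have := alternatingGroup.isMultiplyPretransitive (Fin n)
    refine ne_of_tuples (α := Fin n) (t := 4 * (4 * L) ^ 2) (L := L)
      (isMultiplyPretransitive_of_le (n := Nat.card (Fin n) - 2) (by simp; omega) (Nat.sub_le _ _))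
      (fun H hH => ?_) (by simpa using hL.le) (by rw [Fintype.card_fin]; nlinarith) hg hf
    have hB : n ^ 7 < (4 * L).centralBinom := by
      have h1 := Nat.four_pow_lt_mul_centralBinom (4 * L) (by omega)
      have h2 : 4 * L ≤ 2 ^ L := by
        clear * - hL6
        induction L, hL6 using Nat.le_induction with
        | base => norm_num
        | succ L hL ih =>
          have : 2 ^ 2 ≤ 2 ^ L := Nat.pow_le_pow_right (by norm_num) (by omega)
          rw [pow_succ]
          omega
      have h3 : n ^ 7 ≤ (2 ^ L) ^ 7 := Nat.pow_le_pow_left hL.le 7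
      have h4 : 4 ^ (4 * L) = 2 ^ L * (2 ^ L) ^ 7 := by
        rw [← pow_succ', ← pow_mul, show (4 : ℕ) ^ (4 * L) = (2 ^ 2) ^ (4 * L) from rfl, ← pow_mul]
        congr 1
        ring
      by_contra hc
      have := Nat.mul_le_mul h2 ((not_lt.mp hc).trans h3)
      omega
    have h5 := giant (H := H.map (alternatingGroup (Fin n)).subtype) (m := 4 * L) (by omega)
      (by simp; omega) (by simp; omega) (by simpa using hB) ⟨fun x y => by
        obtain ⟨h, hh, e⟩ := hH x y
        exact ⟨⟨h.1, h, hh, rfl⟩, DFunLike.ext _ _ e⟩⟩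
    rw [eq_top_iff]
    intro x _
    obtain ⟨y, hy, e⟩ := h5 x.2
    exact Subtype.ext e ▸ hy
  · refine ne_of_action (Ω := alternatingGroup (Fin n)) (e := L * (4 * (4 * L) ^ 2 + 1))
      (fun H hH => ?_) ?_ (by rw [Fintype.card_fin]; nlinarith) hg hf
    · rw [eq_top_iff]
      intro x _
      obtain ⟨h, e⟩ := exists_smul_eq H 1 x
      have : h.1 = x := by simpa [Subgroup.smul_def] using e
      exact this ▸ h.2
    · refine (Subgroup.card_le_card_group _).trans ?_
      rw [Nat.card_perm, Nat.card_fin, pow_mul]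
      exact (Nat.factorial_le_pow n).trans ((Nat.pow_le_pow_left hL.le n).trans
        (Nat.pow_le_pow_right (by positivity) (by omega)))

end Pool.Agent.Results.MP_b84581_al.AltPolylog
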