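import Mathlib
import Pool.Agent.MP_b84581_al.h50.CDefs
import Pool.Agent.MP_b84581_al.h50.FinC

namespace Pool.Agent.Results.MP_b84581_al.Classical

theorem result (S : Type) [Group S] [IsSimpleGroup S] (n q : ℕ)
    (hS : Pool.Agent.MP_b84581_al.Cl.IsClassical S n q)
    (k : ℕ) (hk : 132 * n * Nat.clog 2 q ≤ k) (f g : FreeGroup (Fin k) →* S)
    (hf : Function.Surjective f) (hg : Function.Surjective g) :
    ∃ φ : FreeGroup (Fin k) ≃* FreeGroup (Fin k),
      (∀ w, f w = g (φ w)) ∧ Subgroup.map φ.toMonoidHom f.ker = g.ker := by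
  obtain ⟨F, _, _, Γ, rfl, hΓ, ⟨e⟩⟩ := hS
  obtain ⟨φ, h⟩ := Pool.Agent.MP_b84581_al.C.classical_one Γ hΓ
    (e.symm.toMonoidHom.comp (QuotientGroup.mk' _))
    (e.symm.surjective.comp (QuotientGroup.mk'_surjective _))
    (fun x hx => (QuotientGroup.eq_one_iff x).1 (e.symm.map_eq_one_iff.1 hx)) hk f g hf hg
  refine ⟨φ, h, ?_⟩
  ext W
  rw [Subgroup.mem_map_equiv, MonoidHom.mem_ker, MonoidHom.mem_ker, h,
    MulEquiv.apply_symm_apply]

end Pool.Agent.Results.MP_b84581_al.Classical
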