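import Mathlib
import Pool.Agent.MP_b84581_al.h49.Transfer

namespace Pool.Agent.Results.MP_b84581_al.PSLTwo

theorem result (F : Type) [Field F] [Finite F] (hodd : Odd (Nat.card F)) (h13 : 13 ≤ Nat.card F)
    (k : ℕ) (hk : 3 ≤ k)
    (f g : FreeGroup (Fin k) →* Matrix.ProjectiveSpecialLinearGroup (Fin 2) F)
    (hf : Function.Surjective f) (hg : Function.Surjective g) :
    ∃ φ : FreeGroup (Fin k) ≃* FreeGroup (Fin k),
      (∀ w, f w = g (φ w)) ∧ Subgroup.map φ.toMonoidHom f.ker = g.ker := by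
  obtain ⟨φ, h⟩ := Pool.Agent.MP_b84581_al.H49.nielsen F hodd h13 k hk g f hg hf
  refine ⟨φ, h, ?_⟩
  ext W
  rw [Subgroup.mem_map_equiv, MonoidHom.mem_ker, MonoidHom.mem_ker, h,
    MulEquiv.apply_symm_apply]

end Pool.Agent.Results.MP_b84581_al.PSLTwo
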