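import Mathlib
import Pool.Agent.MP_b84581_al.h50.FinA

namespace Pool.Agent.Results.MP_b84581_al.SystemSize

theorem result (G : Type) [Group G] [Finite G] (hG : commutator G = ⊤)
    (K : Type) [Field K] (d : ℕ) (σ : MulAut G →* Matrix.GeneralLinearGroup (Fin d) K)
    (hσ : ∃ g : G, σ (MulAut.conj g) ≠ 1) (k : ℕ) (N : Subgroup (FreeGroup (Fin k)))
    (hN : ∃ f : FreeGroup (Fin k) →* G, Function.Surjective f ∧ f.ker = N) :
    2 ^ (k / 7) ≤ d * Set.ncard {M : Subgroup (FreeGroup (Fin k)) |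
      ∃ φ : FreeGroup (Fin k) ≃* FreeGroup (Fin k), Subgroup.map φ.toMonoidHom N = M} := by
  obtain ⟨f, hf, rfl⟩ := hN
  exact Pool.Agent.MP_b84581_al.O.orbit_large hG σ hσ f hf

end Pool.Agent.Results.MP_b84581_al.SystemSize
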